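import Pool.Agent.H32.TF.Final

/-!
Two families with intersections of size two: the conjectured bound holds up to a factor tending to
one, uniformly in `a ≤ b` and for arbitrary ground sets.
-/

set_option autoImplicit false

namespace Pool.Agent.Results.MP_20855c_co.AsymptoticBound

open Pool.Agent.H32.TF

/-- Every `(a,b)`-system, on any ground set, has at most
`(1 + 20 * sqrt (log (a + b) / (a + b))) * S(a,b)` pairs. -/
theorem result : ∀ a b : ℕ, 2 ≤ a → a ≤ b →
    ∀ n : ℕ, ∀ A B : Fin n → Finset ℕ,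
      (∀ i, (A i).card = a) →
      (∀ i, (B i).card = b) →
      (∀ i, (A i ∩ B i).card = 2) →
      (∀ i j k : Fin n, i ≠ j → ¬ (A i ∩ B j ⊆ A k ∩ B k)) →
      (n : ℝ) ≤ (1 + 20 * Real.sqrt (Real.log ((a : ℝ) + b) / ((a : ℝ) + b)))
        * ((∑ i ∈ Finset.Icc 2 a, 2 ^ (i - 2) * Nat.choose (a + b - 2 * i) (a - i) : ℕ) : ℝ) := by
  intro a b ha hab n A B hA hB hAB h
  rw [s_eq a b ha hab]
  exact asym a b ha hab n A B hA hB hAB h

end Pool.Agent.Results.MP_20855c_co.AsymptoticBound
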