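import Pool.Agent.H32.TF.Core

/-!
Two families with intersections of size two: on any ground set, the number of pairs whose
intersection lies in a given set with at most `a + b - 2` points is at most `S(a,b)`.
-/

set_option autoImplicit false

namespace Pool.Agent.Results.MP_20855c_co.IntersectionsInSmallSet

open Pool.Agent.H32.TF

/-- For every `(a,b)`-system, on any ground set, and every set `Y` with at most `a + b - 2` points,
at most `S(a,b)` of the pairs have their intersection inside `Y`. -/
theorem result : ∀ a b : ℕ, 2 ≤ a → a ≤ b →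
    ∀ n : ℕ, ∀ A B : Fin n → Finset ℕ,
      (∀ i, (A i).card = a) →
      (∀ i, (B i).card = b) →
      (∀ i, (A i ∩ B i).card = 2) →
      (∀ i j k : Fin n, i ≠ j → ¬ (A i ∩ B j ⊆ A k ∩ B k)) →
      ∀ Y : Finset ℕ, Y.card ≤ a + b - 2 →
        (Finset.univ.filter (fun i => A i ∩ B i ⊆ Y)).card
          ≤ ∑ i ∈ Finset.Icc 2 a, 2 ^ (i - 2) * Nat.choose (a + b - 2 * i) (a - i) := by
  intro a b ha hab n A B hA hB hAB h Y hY
  rw [s_eq a b ha hab]
  obtain ⟨Y', hYY', hY'⟩ := Infinite.exists_superset_card_eq Y (a + b - 2) hY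
  -- a bound for all the points
  set V : Finset ℕ := Y' ∪ Finset.univ.biUnion (fun i => A i ∪ B i) with hV
  obtain ⟨N, hN⟩ : ∃ N, ∀ x ∈ V, x < N := ⟨V.sup id + 1, fun x hx => by
    have := Finset.le_sup (f := id) hx
    simp only [id] at this
    omega⟩
  have hAN : ∀ i, ∀ x ∈ A i, x < N := fun i x hx => hN x (by
    rw [hV, Finset.mem_union, Finset.mem_biUnion]
    exact Or.inr ⟨i, Finset.mem_univ _, Finset.mem_union_left _ hx⟩)
  have hBN : ∀ i, ∀ x ∈ B i, x < N := fun i x hx => hN x (by
    rw [hV, Finset.mem_union, Finset.mem_biUnion]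
    exact Or.inr ⟨i, Finset.mem_univ _, Finset.mem_union_right _ hx⟩)
  have hYN : ∀ x ∈ Y', x < N := fun x hx => hN x (by
    rw [hV, Finset.mem_union]; exact Or.inl hx)
  set A' : Fin n → Finset (Fin N) := fun i => (A i).attachFin (hAN i) with hA'
  set B' : Fin n → Finset (Fin N) := fun i => (B i).attachFin (hBN i) with hB'
  set Y1 : Finset (Fin N) := Y'.attachFin hYN with hY1
  have mA : ∀ i x, x ∈ A' i ↔ x.val ∈ A i := fun i x => Finset.mem_attachFin _
  have mB : ∀ i x, x ∈ B' i ↔ x.val ∈ B i := fun i x => Finset.mem_attachFin _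
  have mY : ∀ x, x ∈ Y1 ↔ x.val ∈ Y' := fun x => Finset.mem_attachFin _
  have hint : ∀ i j, ∀ x : Fin N, x ∈ A' i ∩ B' j ↔ x.val ∈ A i ∩ B j := by
    intro i j x
    rw [Finset.mem_inter, Finset.mem_inter, mA, mB]
  have hcard : ∀ i, (A' i ∩ B' i).card = 2 := by
    intro i
    have e : A' i ∩ B' i = (A i ∩ B i).attachFin
        (fun x hx => hAN i x (Finset.mem_inter.1 hx).1) := by
      ext x
      rw [hint, Finset.mem_attachFin]
    rw [e, Finset.card_attachFin, hAB]
  have key := core a b ha hab A' B' (fun i => by rw [hA']; simp [hA])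
    (fun i => by rw [hB']; simp [hB]) hcard ?_ Y1 (by rw [hY1, Finset.card_attachFin, hY'])
  · refine le_trans (Finset.card_le_card ?_) key
    intro i hi
    rw [Finset.mem_filter] at hi ⊢
    refine ⟨Finset.mem_univ _, ?_⟩
    intro x hx
    rw [hint] at hx
    rw [mY]
    exact hYY' (hi.2 hx)
  · intro i j k hij hsub
    apply h i j k hij
    intro x hx
    have hxN := hAN i x (Finset.mem_inter.1 hx).1
    have h1 : (⟨x, hxN⟩ : Fin N) ∈ A' i ∩ B' j := by
      rw [hint]; exact hx
    have h2 := hsub h1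
    rw [hint] at h2
    exact h2

end Pool.Agent.Results.MP_20855c_co.IntersectionsInSmallSet
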